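import Mathlib
import Pool.Agent.H916R3.HFC.Main

/-!
# Separable Hausdorff spaces with a discretely Lindelöf co-diagonal are Lindelöf
-/

set_option autoImplicit false

namespace Pool.Agent.R820.CoDiag

open Set Topology

universe u

variable {X : Type u} [TopologicalSpace X]

lemma keyA [T2Space X]
    (h : ∀ D : Set {p : X × X // p.1 ≠ p.2}, DiscreteTopology D → IsLindelof (closure D))
    {D : Set X} (hD : ∀ d ∈ D, ∃ V, IsOpen V ∧ d ∈ V ∧ ∀ d' ∈ D, d' ∈ V → d' = d) {p : X}
    (B : ℕ → Set X) (hB : ∀ n, B n ⊆ D) (hp : ∀ n, p ∈ closure (B n))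
    (hf : ∀ d, {n | d ∈ B n}.Finite) (q : ℕ → X) : IsLindelof (closure (range q) \ {p}) := by
  classical
  let D' : Set {p : X × X // p.1 ≠ p.2} := {z | ∃ m, z.1.1 ∈ B m ∧ z.1.2 = q m}
  have hD' : DiscreteTopology D' := by
    rw [discreteTopology_subtype_iff']
    rintro z ⟨m, hz, hz2⟩
    obtain ⟨V, hV, hxV, hV'⟩ := hD _ (hB m hz)
    let S : Set X := (q '' {j | z.1.1 ∈ B j}) \ {q m}
    have hS : S.Finite := ((hf z.1.1).image q).subset (fun _ hx => hx.1)
    refine ⟨{w | w.1.1 ∈ V ∧ w.1.2 ∈ Sᶜ}, ?_, ?_⟩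
    · exact (hV.preimage (continuous_fst.comp continuous_subtype_val)).inter
        (hS.isClosed.isOpen_compl.preimage (continuous_snd.comp continuous_subtype_val))
    · ext w
      constructor
      · rintro ⟨⟨h1, h2⟩, j, hj, hw⟩
        have h3 : w.1.1 = z.1.1 := hV' _ (hB j hj) h1
        have h4 : q j = q m := by
          by_contra h4
          refine h2 ⟨⟨j, ?_, hw.symm⟩, fun h5 => h4 (hw.symm.trans h5)⟩
          rw [mem_setOf_eq, ← h3]
          exact hj
        rw [mem_singleton_iff]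
        apply Subtype.ext
        exact Prod.ext h3 (by rw [hw, hz2, h4])
      · intro hw
        rw [mem_singleton_iff.1 hw]
        refine ⟨⟨hxV, ?_⟩, m, hz, hz2⟩
        rintro ⟨-, h2⟩
        exact h2 hz2
  have hL := h D' hD'
  let F : Set {p : X × X // p.1 ≠ p.2} := {z | z.1.1 = p ∧ z.1.2 ∈ closure (range q)}
  have hF : IsClosed F :=
    ((isClosed_singleton (x := p)).preimage (continuous_fst.comp continuous_subtype_val)).inter
      (isClosed_closure.preimage (continuous_snd.comp continuous_subtype_val))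
  have hFD : F ⊆ closure D' := by
    rintro ⟨⟨a, y⟩, hay⟩ ⟨h1, h2⟩
    change a = p at h1
    change y ∈ closure (range q) at h2
    subst h1
    rw [mem_closure_iff]
    intro O hO hzO
    obtain ⟨O', hO', rfl⟩ := isOpen_induced_iff.1 hO
    obtain ⟨V, W, hV, hW, haV, hyW, hVW⟩ := isOpen_prod_iff.1 hO' a y hzO
    obtain ⟨V1, W1, hV1, hW1, haV1, hyW1, hd⟩ := t2_separation (show a ≠ y from hay)
    obtain ⟨_, ⟨h3, h4⟩, m, rfl⟩ := mem_closure_iff.1 h2 (W ∩ W1) (hW.inter hW1) ⟨hyW, hyW1⟩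
    obtain ⟨d, ⟨h5, h6⟩, h7⟩ := mem_closure_iff.1 (hp m) (V ∩ V1) (hV.inter hV1) ⟨haV, haV1⟩
    have hne : d ≠ q m := fun h => Set.disjoint_left.1 hd h6 (h ▸ h4)
    exact ⟨⟨(d, q m), hne⟩, hVW ⟨h5, h3⟩, m, h7, rfl⟩
  have h1 : IsLindelof F := hL.of_isClosed_subset hF hFD
  have h2 : closure (range q) \ {p} = (fun z : {p : X × X // p.1 ≠ p.2} => z.1.2) '' F := by
    ext y
    constructor
    · rintro ⟨h1, h2⟩
      exact ⟨⟨(p, y), fun h => h2 h.symm⟩, ⟨rfl, h1⟩, rfl⟩
    · rintro ⟨z, ⟨h2, h3⟩, rfl⟩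
      refine ⟨h3, fun h4 => z.2 ?_⟩
      rw [h2]
      exact h4.symm
  rw [h2]
  exact h1.image (continuous_snd.comp continuous_subtype_val)

/-- In a separable Hausdorff space each set accumulating at `p` has a point-finite sequence of
subsets accumulating at `p`. -/
lemma keyB [T2Space X] {q : ℕ → X} (hq : DenseRange q) {D : Set X} {p : X} (hp : p ∈ closure D)
    (hpD : p ∉ D) : ∃ B : ℕ → Set X, (∀ n, B n ⊆ D) ∧ (∀ n, p ∈ closure (B n)) ∧
      ∀ d, {n | d ∈ B n}.Finite := by
  classical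
  by_contra H
  -- decreasing sequences of positive sets have positive intersections
  have hdec : ∀ B : ℕ → Set X, (∀ n, B n ⊆ D) → (∀ n, p ∈ closure (B n)) → (∀ n, B (n + 1) ⊆ B n) →
      p ∈ closure (⋂ n, B n) := by
    intro B hB hpB hBd
    by_contra hcon
    have hanti : Antitone B := antitone_nat_of_succ_le hBd
    apply H
    refine ⟨fun n => B n \ ⋂ n, B n, fun n => sdiff_subset.trans (hB n), fun n => ?_, fun d => ?_⟩
    · have h1 : p ∈ closure ((B n \ ⋂ n, B n) ∪ ⋂ n, B n) := by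
        refine closure_mono ?_ (hpB n)
        intro y hy
        by_cases h : y ∈ ⋂ n, B n
        · exact Or.inr h
        · exact Or.inl ⟨hy, h⟩
      rw [closure_union] at h1
      exact h1.resolve_right hcon
    · by_cases h : d ∈ ⋂ n, B n
      · convert Set.finite_empty (α := ℕ) using 1
        ext n
        simp only [mem_setOf_eq, mem_empty_iff_false, iff_false]
        exact fun h' => h'.2 h
      · rw [mem_iInter] at h
        push Not at h
        obtain ⟨N, hN⟩ := h
        refine (finite_lt_nat N).subset ?_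
        intro n hn
        rw [mem_setOf_eq]
        by_contra hlt
        exact hN (hanti (not_lt.1 hlt) hn.1)
  -- an unsplittable set
  obtain ⟨E, hED, hpE, hE⟩ : ∃ E ⊆ D, p ∈ closure E ∧
      ∀ A : Set X, p ∈ closure (E ∩ A) → p ∉ closure (E \ A) := by
    by_contra hcon
    push Not at hcon
    choose! A hA1 hA2 using hcon
    let E : ℕ → {E : Set X // E ⊆ D ∧ p ∈ closure E} := fun n => Nat.rec ⟨D, Subset.rfl, hp⟩
      (fun _ E => ⟨E.1 ∩ A E.1, inter_subset_left.trans E.2.1, hA1 E.1 E.2.1 E.2.2⟩) n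
    have hEs : ∀ n, (E (n + 1)).1 = (E n).1 ∩ A (E n).1 := fun n => rfl
    have hanti : Antitone fun n => (E n).1 := antitone_nat_of_succ_le fun n => by
      rw [hEs]
      exact inter_subset_left
    apply H
    refine ⟨fun n => (E n).1 \ A (E n).1, fun n => sdiff_subset.trans (E n).2.1,
      fun n => hA2 _ (E n).2.1 (E n).2.2, fun d => ?_⟩
    refine Set.Subsingleton.finite ?_
    intro n hn m hm
    by_contra hne
    rcases lt_or_gt_of_ne hne with h | h
    · have h1 : d ∈ (E (n + 1)).1 := hanti h hm.1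
      rw [hEs] at h1
      exact hn.2 h1.2
    · have h1 : d ∈ (E (m + 1)).1 := hanti h hn.1
      rw [hEs] at h1
      exact hm.2 h1.2
  have hor : ∀ A : Set X, p ∈ closure (E ∩ A) ∨ p ∈ closure (E \ A) := by
    intro A
    rw [← mem_union, ← closure_union]
    refine closure_mono ?_ hpE
    intro y hy
    by_cases h : y ∈ A
    · exact Or.inl ⟨hy, h⟩
    · exact Or.inr ⟨hy, h⟩
  have hinter : ∀ A A' : Set X, p ∈ closure (E ∩ A) → p ∈ closure (E ∩ A') →
      p ∈ closure (E ∩ (A ∩ A')) := by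
    intro A A' h1 h2
    rcases hor (A ∩ A') with h | h
    · exact h
    · exfalso
      have h3 : p ∈ closure ((E \ A) ∪ (E \ A')) := by
        refine closure_mono ?_ h
        intro y hy
        by_cases h : y ∈ A
        · exact Or.inr ⟨hy.1, fun h' => hy.2 ⟨h, h'⟩⟩
        · exact Or.inl ⟨hy.1, h⟩
      rw [closure_union] at h3
      rcases h3 with h3 | h3
      · exact hE A h1 h3
      · exact hE A' h2 h3
  have hcount : ∀ A : ℕ → Set X, (∀ n, p ∈ closure (E ∩ A n)) → p ∈ closure (E ∩ ⋂ n, A n) := by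
    intro A hA
    let C : ℕ → Set X := fun n => Nat.rec (A 0) (fun n C => C ∩ A (n + 1)) n
    have hCs : ∀ n, C (n + 1) = C n ∩ A (n + 1) := fun n => rfl
    have hC : ∀ n, p ∈ closure (E ∩ C n) := by
      intro n
      induction n with
      | zero => exact hA 0
      | succ n ih => rw [hCs]; exact hinter _ _ ih (hA (n + 1))
    have h1 := hdec (fun n => E ∩ C n) (fun n => inter_subset_left.trans hED) hC (fun n => by
      rw [hCs]
      exact fun y hy => ⟨hy.1, hy.2.1⟩)
    refine closure_mono ?_ h1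
    intro y hy
    rw [mem_iInter] at hy
    refine ⟨(hy 0).1, mem_iInter.2 fun n => ?_⟩
    cases n with
    | zero => exact (hy 0).2
    | succ n => exact (hy (n + 1)).2.2
  -- constancy of maps to `Set ℕ`
  have hconst : ∀ g : X → Set ℕ, ∃ t, p ∈ closure (E ∩ {d | g d = t}) := by
    intro g
    have h1 : ∀ n : ℕ, ∃ b : Prop, p ∈ closure (E ∩ {d | (n ∈ g d) = b}) := by
      intro n
      rcases hor {d | n ∈ g d} with h | h
      · refine ⟨True, closure_mono ?_ h⟩
        rintro y ⟨h1, h2⟩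
        exact ⟨h1, eq_true h2⟩
      · refine ⟨False, closure_mono ?_ h⟩
        rintro y ⟨h1, h2⟩
        exact ⟨h1, eq_false h2⟩
    choose b hb using h1
    refine ⟨{n | b n}, closure_mono ?_ (hcount _ hb)⟩
    rintro y ⟨h1, h2⟩
    refine ⟨h1, ?_⟩
    ext n
    have h3 := mem_iInter.1 h2 n
    rw [mem_setOf_eq] at h3
    rw [mem_setOf_eq, h3]
  have hcont : ∀ A : Set ℕ → Set X, (∀ t, p ∈ closure (E ∩ A t)) → p ∈ closure (E ∩ ⋂ t, A t) := by
    intro A hA
    rcases hor (⋂ t, A t) with h | h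
    · exact h
    · exfalso
      have h1 : ∀ d : X, ∃ t, d ∉ ⋂ t, A t → d ∉ A t := by
        intro d
        by_cases hd : d ∈ ⋂ t, A t
        · exact ⟨∅, fun h' => absurd hd h'⟩
        · rw [mem_iInter] at hd
          push Not at hd
          obtain ⟨t, ht⟩ := hd
          exact ⟨t, fun _ => ht⟩
      choose g hg using h1
      obtain ⟨t, ht⟩ := hconst g
      have h2 : p ∈ closure (E ∩ (⋂ t, A t)ᶜ) := by
        rw [← diff_eq]
        exact h
      refine hE (A t) (hA t) (closure_mono ?_ (hinter _ _ ht h2))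
      rintro y ⟨h3, h4, h5⟩
      refine ⟨h3, ?_⟩
      rw [mem_setOf_eq] at h4
      rw [← h4]
      exact hg y h5
  -- the traces on the dense set
  have h1 : ∀ t : Set ℕ, ∃ b : Prop, p ∈ closure (E ∩ {d | (d ∈ closure (q '' t)) = b}) := by
    intro t
    rcases hor (closure (q '' t)) with h | h
    · refine ⟨True, closure_mono ?_ h⟩
      rintro y ⟨h1, h2⟩
      exact ⟨h1, eq_true h2⟩
    · refine ⟨False, closure_mono ?_ h⟩
      rintro y ⟨h1, h2⟩
      exact ⟨h1, eq_false h2⟩
  choose b hb using h1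
  have h2 := hcont _ hb
  obtain ⟨d, -, hd1, hd2⟩ := mem_closure_iff.1 h2 univ isOpen_univ (mem_univ p)
  have hpd : p ≠ d := fun h => hpD (hED (h ▸ hd1))
  obtain ⟨V, V', hV, hV', hpV, hdV', hdis⟩ := t2_separation hpd
  obtain ⟨d', hd'V, hd'1, hd'2⟩ := mem_closure_iff.1 h2 V hV hpV
  have h3 : d' ∈ closure (q '' {n | q n ∈ V}) := by
    rw [mem_closure_iff]
    intro O hO hd'O
    obtain ⟨n, hn1, hn2⟩ := hq.exists_mem_open (hO.inter hV) ⟨d', hd'O, hd'V⟩
    exact ⟨q n, hn1, n, hn2, rfl⟩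
  have h4 : d ∉ closure (q '' {n | q n ∈ V}) := by
    intro h
    obtain ⟨_, h5, n, h6, rfl⟩ := mem_closure_iff.1 h V' hV' hdV'
    exact Set.disjoint_left.1 hdis h6 h5
  have h5 := mem_iInter.1 hd2 {n | q n ∈ V}
  have h6 := mem_iInter.1 hd'2 {n | q n ∈ V}
  rw [mem_setOf_eq] at h5 h6
  exact h4 (h5.symm ▸ h6 ▸ h3)

/-- pointwise form of discreteness -/
def Disc (D : Set X) : Prop := ∀ d ∈ D, ∃ V, IsOpen V ∧ d ∈ V ∧ ∀ d' ∈ D, d' ∈ V → d' = d

open Pool.Agent.H916R3.HFC (W1 W1_Iio W1_univ exists_seq)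

lemma keyC [T1Space X] (hc : ∀ D : Set X, Disc D → D.Countable)
    (hl : ∀ D : Set X, Disc D → IsLindelof (closure D)) : LindelofSpace X := by
  classical
  refine ⟨isLindelof_of_countable_subcover ?_⟩
  intro ι U hU hcov
  by_contra hno
  push Not at hno
  have h1 : ∀ S : Set X, ∃ t : Set ι, t.Countable ∧ (Disc S → closure S ⊆ ⋃ i ∈ t, U i) := by
    intro S
    by_cases hS : Disc S
    · obtain ⟨r, hr, hr'⟩ := (hl S hS).elim_countable_subcover U hU ((subset_univ _).trans hcov)
      exact ⟨r, hr, fun _ => hr'⟩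
    · exact ⟨∅, countable_empty, fun h => absurd h hS⟩
  choose t ht ht' using h1
  obtain ⟨g, hg⟩ := exists_seq (I := W1) (T := X × Set X)
    (fun C a => a.2 = insert a.1 (Prod.fst '' C) ∧
      (Disc (Prod.fst '' C) → a.1 ∉ closure (Prod.fst '' C)) ∧
      ∀ c ∈ C, ∀ i ∈ t c.2, a.1 ∉ U i) W1_Iio (by
    intro C hC
    have h2 : (t (Prod.fst '' C) ∪ ⋃ c ∈ C, t c.2).Countable :=
      (ht _).union (hC.biUnion fun c _ => ht _)
    have h3 := hno _ h2
    rw [not_subset] at h3
    obtain ⟨x, -, hx⟩ := h3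
    refine ⟨(x, insert x (Prod.fst '' C)), rfl, ?_, ?_⟩
    · intro hd hx'
      obtain ⟨i, hi, hi'⟩ := mem_iUnion₂.1 (ht' _ hd hx')
      exact hx (mem_iUnion₂.2 ⟨i, Or.inl hi, hi'⟩)
    · intro c hc' i hi hxi
      exact hx (mem_iUnion₂.2 ⟨i, Or.inr (mem_iUnion₂.2 ⟨c, hc', hi⟩), hxi⟩))
  let x : W1 → X := fun ξ => (g ξ).1
  let S : W1 → Set X := fun ξ => Prod.fst '' (g '' Iio ξ)
  have hmemS : ∀ {ξ η : W1}, η < ξ → x η ∈ S ξ := fun {ξ η} h => ⟨g η, ⟨η, h, rfl⟩, rfl⟩
  have hSmem : ∀ {ξ : W1} {y : X}, y ∈ S ξ → ∃ η < ξ, x η = y := by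
    rintro ξ y ⟨_, ⟨η, hη, rfl⟩, rfl⟩
    exact ⟨η, hη, rfl⟩
  have hR : ∀ ξ, (g ξ).2 = insert (x ξ) (S ξ) := fun ξ => (hg ξ).1
  let V : W1 → Set X := fun ξ => (⋃ i ∈ t (g ξ).2, U i) \ closure (S ξ)
  have hVo : ∀ ξ, IsOpen (V ξ) := fun ξ =>
    (isOpen_biUnion fun i _ => hU i).sdiff isClosed_closure
  have hV1 : ∀ η ζ, x ζ ∈ V η → ζ = η := by
    intro η ζ h
    rcases lt_trichotomy ζ η with h1 | h1 | h1
    · exact absurd (subset_closure (hmemS h1)) h.2
    · exact h1
    · obtain ⟨i, hi, hi'⟩ := mem_iUnion₂.1 h.1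
      exact absurd hi' ((hg ζ).2.2 (g η) ⟨η, h1, rfl⟩ i hi)
  have hV2 : ∀ η, x η ∉ closure (S η) → Disc (g η).2 → x η ∈ V η := by
    intro η h1 h2
    refine ⟨ht' _ h2 (subset_closure ?_), h1⟩
    rw [hR]
    exact mem_insert _ _
  have hmain : ∀ ξ, x ξ ∉ closure (S ξ) ∧ Disc (g ξ).2 := by
    intro ξ
    induction ξ using WellFoundedLT.induction with
    | ind ξ ih =>
      have h2 : Disc (S ξ) := by
        intro d hd
        obtain ⟨η, hη, rfl⟩ := hSmem hd
        refine ⟨V η, hVo η, hV2 η (ih η hη).1 (ih η hη).2, ?_⟩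
        intro d' hd' hd'V
        obtain ⟨ζ, hζ, rfl⟩ := hSmem hd'
        rw [hV1 η ζ hd'V]
      have h3 : x ξ ∉ closure (S ξ) := (hg ξ).2.1 h2
      refine ⟨h3, ?_⟩
      rw [hR]
      intro d hd
      rcases hd with rfl | hd
      · refine ⟨(closure (S ξ))ᶜ, isClosed_closure.isOpen_compl, h3, ?_⟩
        intro d' hd' hd'2
        rcases hd' with h | h
        · exact h
        · exact absurd (subset_closure h) hd'2
      · obtain ⟨η, hη, rfl⟩ := hSmem hd
        refine ⟨V η, hVo η, hV2 η (ih η hη).1 (ih η hη).2, ?_⟩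
        intro d' hd' hd'V
        rcases hd' with rfl | hd'
        · rw [hV1 η ξ hd'V]
        · obtain ⟨ζ, hζ, rfl⟩ := hSmem hd'
          rw [hV1 η ζ hd'V]
  have hxV : ∀ ξ, x ξ ∈ V ξ := fun ξ => hV2 ξ (hmain ξ).1 (hmain ξ).2
  have hinj : Function.Injective x := by
    intro ζ η h
    exact hV1 η ζ (h ▸ hxV η)
  have h4 : (range x).Countable := by
    apply hc
    rintro _ ⟨η, rfl⟩
    refine ⟨V η, hVo η, hxV η, ?_⟩
    rintro _ ⟨ζ, rfl⟩ h
    rw [hV1 η ζ h]
  apply W1_univ
  rw [← image_univ] at h4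
  exact countable_of_injective_of_countable_image hinj.injOn h4

/-- A separable Hausdorff space with a discretely Lindelöf co-diagonal is Lindelöf. -/
theorem main [T2Space X] [TopologicalSpace.SeparableSpace X]
    (h : ∀ D : Set {p : X × X // p.1 ≠ p.2}, DiscreteTopology D → IsLindelof (closure D)) :
    LindelofSpace X := by
  classical
  rcases isEmpty_or_nonempty X with hX | hX
  · exact ⟨by rw [Set.eq_empty_of_isEmpty univ]; exact isLindelof_empty⟩
  by_cases hcase : ∃ D : Set X, Disc D ∧ ∃ p ∈ closure D, p ∉ D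
  · obtain ⟨D, hD, p, hp, hpD⟩ := hcase
    obtain ⟨B, hB1, hB2, hB3⟩ := keyB (TopologicalSpace.denseRange_denseSeq X) hp hpD
    have h1 := keyA h hD B hB1 hB2 hB3 (TopologicalSpace.denseSeq X)
    rw [(TopologicalSpace.denseRange_denseSeq X).closure_range] at h1
    refine ⟨?_⟩
    have h2 : (univ : Set X) = (univ \ {p}) ∪ {p} := by
      ext y
      by_cases hy : y = p <;> simp [hy]
    rw [h2]
    exact h1.union isCompact_singleton.isLindelof
  · push Not at hcase
    have hcl : ∀ D : Set X, Disc D → closure D = D := fun D hD =>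
      Subset.antisymm (fun y hy => hcase D hD y hy) subset_closure
    have hc : ∀ D : Set X, Disc D → D.Countable := by
      intro D hD
      obtain ⟨p⟩ := hX
      let D' : Set {p : X × X // p.1 ≠ p.2} := {z | z.1.1 = p ∧ z.1.2 ∈ D}
      have hD' : DiscreteTopology D' := by
        rw [discreteTopology_subtype_iff']
        rintro z ⟨hz, hz2⟩
        obtain ⟨V, hV, hxV, hV'⟩ := hD _ hz2
        refine ⟨{w | w.1.2 ∈ V}, hV.preimage (continuous_snd.comp continuous_subtype_val), ?_⟩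
        ext w
        constructor
        · rintro ⟨h1, h2, h3⟩
          rw [mem_singleton_iff]
          exact Subtype.ext (Prod.ext (h2.trans hz.symm) (hV' _ h3 h1))
        · intro hw
          rw [mem_singleton_iff.1 hw]
          exact ⟨hxV, hz, hz2⟩
      have hD'c : IsClosed D' := by
        have h2 : IsClosed D := by
          rw [← hcl D hD]
          exact isClosed_closure
        exact ((isClosed_singleton (x := p)).preimage
          (continuous_fst.comp continuous_subtype_val)).inter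
          (h2.preimage (continuous_snd.comp continuous_subtype_val))
      have h1 := h D' hD'
      rw [hD'c.closure_eq] at h1
      have h2 : LindelofSpace D' := isLindelof_iff_LindelofSpace.1 h1
      have h3 : Countable D' := countable_of_Lindelof_of_discrete
      have h4 : D ⊆ insert p ((fun z : {p : X × X // p.1 ≠ p.2} => z.1.2) '' D') := by
        intro d hd
        by_cases hdp : d = p
        · exact Or.inl hdp
        · exact Or.inr ⟨⟨(p, d), fun h => hdp h.symm⟩, ⟨rfl, hd⟩, rfl⟩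
      exact (((Set.countable_coe_iff.1 h3).image _).insert p).mono h4
    refine keyC hc fun D hD => ?_
    rw [hcl D hD]
    exact (hc D hD).isLindelof

end Pool.Agent.R820.CoDiag
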