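import Mathlib
import Pool.Agent.H916R3.HFC.Main

/-!
# A non-separable space under CH whose co-diagonal is discretely countable
-/

set_option autoImplicit false

namespace Pool.Agent.R820.LSp

open Set Topology Filter Cardinal
open Pool.Agent.H916R3.HFC

variable {e : W1 → ℕ → Fp W1} {x : W1 → W1 → Bool}

/-- the points vanishing from `γ` on -/
def KK (x : W1 → W1 → Bool) (γ : W1) : Set (Sp x) := {z | ∀ i, γ ≤ i → z.1 i = false}

lemma isClosed_KK (γ : W1) : IsClosed (KK x γ) := by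
  have : KK x γ = ⋂ i ∈ Ici γ, {z : Sp x | z.1 i = false} := by
    ext z
    simp [KK]
  rw [this]
  refine isClosed_biInter fun i _ => ?_
  have h1 : Continuous fun z : Sp x => z.1 i := (continuous_apply i).comp continuous_subtype_val
  exact (isClosed_discrete ({false} : Set Bool)).preimage h1

lemma exists_bound_KK (hx : Fam e x) (he : ∀ s : ℕ → Fp W1, ∃ β, e β = s) (γ : W1) :
    ∃ δ : W1, ∀ α, δ < α → pt x α ∉ KK x γ := by
  classical
  have hinf : (Ioi γ).Infinite := by
    intro h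
    apply W1_univ
    have : (univ : Set W1) = Iic γ ∪ Ioi γ := by
      ext a
      simp [le_or_gt]
    rw [this]
    exact (countable_Iic W1_Iio γ).union h.countable
  let g : ℕ → W1 := fun k => (hinf.natEmbedding _ k).1
  have hg : Function.Injective g := fun k l h => (hinf.natEmbedding _).injective (Subtype.ext h)
  have hg' : ∀ k, γ < g k := fun k => (hinf.natEmbedding _ k).2
  obtain ⟨β, hβ⟩ := he (fun k => {(g k, true)})
  obtain ⟨δ, hδ⟩ := bdd_of_countable W1_Iio W1_univ ((countable_range g).insert β)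
  refine ⟨δ, fun α hα hK => ?_⟩
  obtain ⟨k, hk⟩ := hx.two α β ((hδ β (mem_insert _ _)).trans hα) (by
    rw [hβ]
    rintro τ ⟨y, hy⟩
    obtain ⟨a, ⟨k, rfl⟩, hk⟩ := (Set.infinite_range_of_injective hg).exists_notMem_finset
      (τ.image Prod.fst)
    refine ⟨k, Function.update y (g k) true, fun p hp => ?_, fun p hp => ?_⟩
    · have h1 : p.1 ≠ g k := fun h => hk (Finset.mem_image.2 ⟨p, hp, h⟩)
      rw [Function.update_of_ne h1]
      exact hy p hp
    · rw [Finset.mem_singleton.1 hp]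
      simp) (by
    intro k p hp
    rw [hβ] at hp
    rw [Finset.mem_singleton.1 hp]
    exact (hδ _ (mem_insert_of_mem _ (mem_range_self k))).trans hα)
  rw [hβ] at hk
  have h1 : x α (g k) = true := hk (g k, true) (Finset.mem_singleton_self _)
  have h2 : x α (g k) = false := hK (g k) (hg' k).le
  rw [h1] at h2
  exact absurd h2 (by simp)

lemma countable_KK (hx : Fam e x) (he : ∀ s : ℕ → Fp W1, ∃ β, e β = s) (γ : W1) :
    (KK x γ).Countable := by
  obtain ⟨δ, hδ⟩ := exists_bound_KK hx he γ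
  refine ((countable_Iic W1_Iio δ).image (pt x)).mono ?_
  rintro ⟨_, α, rfl⟩ hz
  refine ⟨α, ?_, rfl⟩
  by_contra h
  exact hδ α (not_le.1 h) hz

lemma exists_KK (hx : Fam e x) {S : Set (Sp x)} (hS : S.Countable) : ∃ γ, S ⊆ KK x γ := by
  choose a ha using fun z : Sp x => z.2
  obtain ⟨γ, hγ⟩ := bdd_of_countable W1_Iio W1_univ (hS.image a)
  refine ⟨γ, fun z hz i hi => ?_⟩
  rw [← ha z]
  exact hx.four _ _ ((hγ _ ⟨z, hz, rfl⟩).le.trans hi)

lemma not_separable (hx : Fam e x) (he : ∀ s : ℕ → Fp W1, ∃ β, e β = s) :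
    ¬ TopologicalSpace.SeparableSpace (Sp x) := by
  rintro ⟨S, hS, hSd⟩
  obtain ⟨γ, hγ⟩ := exists_KK hx hS
  obtain ⟨δ, hδ⟩ := exists_bound_KK hx he γ
  have h1 : (Ioi δ).Nonempty := by
    by_contra h
    rw [not_nonempty_iff_eq_empty] at h
    apply W1_univ
    have : (univ : Set W1) = Iic δ ∪ Ioi δ := by
      ext a
      simp [le_or_gt]
    rw [this, h, union_empty]
    exact countable_Iic W1_Iio δ
  obtain ⟨α, hα⟩ := h1
  have h2 : closure S ⊆ KK x γ := closure_minimal hγ (isClosed_KK γ)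
  exact hδ α hα (h2 (by rw [hSd.closure_eq]; exact mem_univ _))

lemma countable_of_discrete (hx : Fam e x) (he : ∀ s : ℕ → Fp W1, ∃ β, e β = s)
    (D : Set {p : Sp x × Sp x // p.1 ≠ p.2}) (hD : DiscreteTopology D) : D.Countable := by
  classical
  by_contra hcon
  have h1 : #W1 ≤ #D := by
    rw [mk_W1, ← Cardinal.succ_aleph0, Order.succ_le_iff, ← not_le]
    exact fun h => hcon (Cardinal.le_aleph0_iff_set_countable.1 h)
  obtain ⟨g⟩ := h1
  have h2 : ∀ d : D, ∃ σ τ : Fp W1, Sat σ d.1.1.1.1 ∧ Sat τ d.1.1.2.1 ∧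
      ∀ d' : D, Sat σ d'.1.1.1.1 → Sat τ d'.1.1.2.1 → d' = d := by
    intro d
    obtain ⟨U, hU, hU'⟩ := isOpen_induced_iff.1 (isOpen_discrete ({d} : Set D))
    obtain ⟨V, hV, rfl⟩ := isOpen_induced_iff.1 hU
    have hdV : d.1.1 ∈ V := by
      have : d ∈ ({d} : Set D) := rfl
      rw [← hU'] at this
      exact this
    obtain ⟨A, B, hA, hB, hdA, hdB, hAB⟩ := isOpen_prod_iff.1 hV d.1.1.1 d.1.1.2 hdV
    obtain ⟨σ, h3, h4⟩ := exists_sat_nhds hA hdA
    obtain ⟨τ, h5, h6⟩ := exists_sat_nhds hB hdB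
    refine ⟨σ, τ, h3, h5, fun d' h7 h8 => ?_⟩
    have : d' ∈ ({d} : Set D) := by
      rw [← hU']
      exact hAB (show (d'.1.1.1, d'.1.1.2) ∈ A ×ˢ B from ⟨h4 _ h7, h6 _ h8⟩)
    exact this
  choose σ τ hσ hτ hst using h2
  choose a ha using fun z : Sp x => z.2
  obtain ⟨η, -, ξ, -, hlt, hsat⟩ := hx.core W1_Iio W1_univ he {0, 1}
    (fun ξ i => if i = 0 then a (g ξ).1.1.1 else a (g ξ).1.1.2)
    (fun ξ i => if i = 0 then σ (g ξ) else τ (g ξ)) univ W1_univ (by
      have hne : ∀ ξ : W1, a (g ξ).1.1.1 ≠ a (g ξ).1.1.2 := by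
        intro ξ h
        apply (g ξ).1.2
        apply Subtype.ext
        rw [← ha (g ξ).1.1.1, ← ha (g ξ).1.1.2, h]
      intro ξ _ i hi j hj hij
      have hi' : i = 0 ∨ i = 1 := by simpa using hi
      have hj' : j = 0 ∨ j = 1 := by simpa using hj
      rcases hi' with rfl | rfl <;> rcases hj' with rfl | rfl
      · rfl
      · simp at hij
        exact absurd hij (hne ξ)
      · simp at hij
        exact absurd hij.symm (hne ξ)
      · rfl) (by
      intro ξ _ i hi
      have hi' : i = 0 ∨ i = 1 := by simpa using hi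
      rcases hi' with rfl | rfl
      · simp only [if_true]
        rw [ha]
        exact hσ (g ξ)
      · simp only [one_ne_zero, if_false]
        rw [ha]
        exact hτ (g ξ))
  have h3 := hsat 0 (by simp)
  have h4 := hsat 1 (by simp)
  simp only [if_true] at h3
  simp only [one_ne_zero, if_false] at h4
  rw [ha] at h3 h4
  exact hlt.ne (g.injective (hst (g η) (g ξ) h3 h4)).symm

/-- The main theorem. -/
theorem main (hCH : Cardinal.aleph.{0} 1 = Cardinal.continuum) :
    ∃ (X : Type) (_ : TopologicalSpace X), T35Space X ∧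
      (∀ D : Set {p : X × X // p.1 ≠ p.2}, DiscreteTopology D → (closure D).Countable) ∧
      ¬ TopologicalSpace.SeparableSpace X ∧
      ∀ S : Set {f : X → ℝ // Continuous f}, TopologicalSpace.SeparableSpace S := by
  obtain ⟨e, he⟩ := exists_enum hCH
  obtain ⟨x, hx⟩ := exists_fam W1_Iio e
  have hne : Nonempty W1 := by
    rw [← Cardinal.mk_ne_zero_iff, mk_W1]
    exact (Cardinal.aleph0_lt_aleph_one.pos).ne'
  have he' : ∀ s : ℕ → Fp W1, ∃ β, e β = s := fun s => by
    obtain ⟨β, _, h⟩ := he s hne.some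
    exact ⟨β, h⟩
  refine ⟨Sp x, inferInstance, inferInstance, ?_, not_separable hx he', ?_⟩
  · intro D hD
    have h1 := countable_of_discrete hx he' D hD
    obtain ⟨γ, hγ⟩ := exists_KK hx (S := (fun p : {p : Sp x × Sp x // p.1 ≠ p.2} => p.1.1) '' D ∪
      (fun p : {p : Sp x × Sp x // p.1 ≠ p.2} => p.1.2) '' D) ((h1.image _).union (h1.image _))
    have h2 : closure D ⊆ {p | p.1.1 ∈ KK x γ ∧ p.1.2 ∈ KK x γ} := by
      refine closure_minimal ?_ ?_
      · intro p hp
        exact ⟨hγ (Or.inl ⟨p, hp, rfl⟩), hγ (Or.inr ⟨p, hp, rfl⟩)⟩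
      · exact ((isClosed_KK γ).preimage (continuous_fst.comp continuous_subtype_val)).inter
          ((isClosed_KK γ).preimage (continuous_snd.comp continuous_subtype_val))
    have h3 : ((KK x γ) ×ˢ (KK x γ)).Countable :=
      (countable_KK hx he' γ).prod (countable_KK hx he' γ)
    refine Set.Countable.mono h2 ?_
    exact (h3.preimage_of_injOn (f := (Subtype.val : {p : Sp x × Sp x // p.1 ≠ p.2} → _))
      Subtype.val_injective.injOn).mono fun p hp => hp
  · intro S
    obtain ⟨c, hc1, hc2, hc3⟩ := hx.hs W1_Iio W1_univ he' S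
    refine ⟨{y : S | y.1 ∈ c}, hc2.preimage_of_injOn Subtype.val_injective.injOn, ?_⟩
    rw [Subtype.dense_iff]
    refine hc3.trans (closure_mono ?_)
    intro g hg
    exact ⟨⟨g, hc1 hg⟩, hg, rfl⟩

end Pool.Agent.R820.LSp
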